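import Pool.Agent.Lib.MP_88da87_gt.Hom

/-!
# Holonomy of bounded turning near a compact leaf with amenable fundamental group and `H¹(L; ℝ) = 0`

The germ of a `C⁰` foliation of codimension `q` along a compact leaf `L` is given by its holonomy, a
homomorphism `ρ` of `G = π₁(L)` into the group of germs at `0` of homeomorphisms of `ℝ^q` fixing `0`; `L` is
stable if and only if `ρ` is trivial (Reeb, Haefliger).

Let `G` be amenable, generated by the finite set `S`, without homomorphisms `≠ 0` to `ℝ`, and `0 < c`, `C` real.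
There is a finite set `B` of elements of `G`, depending only on `G, S, c, C`, such that for every `ρ`
(every codimension, even every normed space) every point `x` near `0` with the following property is
fixed: with `M(x) = Σ_{s ∈ S} |ρ(s)x - x|`, no chord `[ρ(k)x, ρ(k)ρ(s)x]`, `k ∈ B`, `s ∈ S`, is longer than
`C M(x)`, and for one `s ∈ S` and one linear functional `ℓ` of norm at most `1` all the chords
`[ρ(k)x, ρ(k)ρ(s)x]`, `k ∈ B`, satisfy `ℓ(ρ(k)ρ(s)x - ρ(k)x) ≥ c M(x)`.  If all points near `0` have this property,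
then `ρ` is trivial.

Nothing is asked at scales below the displacement `M(x)` of `x`, so this is a condition for
homeomorphisms.  It holds if the `ρ(k)`, `k ∈ B`, are Lipschitz near `0` with constant `C` and
`⟨ρ(k)y - ρ(k)x, y - x⟩ ≥ c |y - x|²` (`lipschitz`), in particular if `Lip(ρ(k) - id) ≤ 1 - c`.
-/

set_option autoImplicit false

namespace Pool.Agent.Results.MP_88da87_gt.BoundedTurning

open Filter Topology

open Classical in
/-- amenable: Følner's condition -/
def Amenable (G : Type) [Group G] : Prop :=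
  ∀ (K : Finset G) (δ : ℝ), 0 < δ → ∃ F : Finset G, F.Nonempty ∧
    ∀ k ∈ K, (((F.image (fun x => k * x)) \ F).card : ℝ) ≤ δ * F.card

/-- `ρ` is a homomorphism of `G` into the group of germs at `0` of homeomorphisms fixing `0` -/
structure IsGermHom {G V : Type} [Group G] [NormedAddCommGroup V] (ρ : G → V → V) : Prop where
  zero : ∀ g, ρ g 0 = 0
  cont : ∀ g, ∀ᶠ x in 𝓝 (0 : V), ContinuousAt (ρ g) x
  one : ∀ᶠ x in 𝓝 (0 : V), ρ 1 x = x
  mul : ∀ g h, ∀ᶠ x in 𝓝 (0 : V), ρ (g * h) x = ρ g (ρ h x)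

/-- the displacement of `x` -/
noncomputable def move {G V : Type} [NormedAddCommGroup V] (S : Finset G) (ρ : G → V → V)
    (x : V) : ℝ :=
  ∑ s ∈ S, ‖ρ s x - x‖

/-- the images under `ρ(k)`, `k ∈ B`, of the chords from `x` to `ρ(s)x`, `s ∈ S`, are not longer than
`C M(x)`, and for one `s ∈ S` they have component at least `c M(x)` in one direction -/
def Tame {G V : Type} [NormedAddCommGroup V] [NormedSpace ℝ V] (B S : Finset G) (c C : ℝ)
    (ρ : G → V → V) (x : V) : Prop :=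
  (∀ k ∈ B, ∀ s ∈ S, ‖ρ k (ρ s x) - ρ k x‖ ≤ C * move S ρ x) ∧
    ∃ s ∈ S, ∃ ℓ : V →L[ℝ] ℝ, ‖ℓ‖ ≤ 1 ∧ ∀ k ∈ B, c * move S ρ x ≤ ℓ (ρ k (ρ s x) - ρ k x)

theorem move_nonneg {G V : Type} [NormedAddCommGroup V] (S : Finset G) (ρ : G → V → V) (x : V) :
    0 ≤ move S ρ x := Finset.sum_nonneg fun _ _ => norm_nonneg _

theorem fixed_of_move {G V : Type} [NormedAddCommGroup V] {S : Finset G} {ρ : G → V → V} {x : V}
    (h : move S ρ x = 0) : ∀ s ∈ S, ρ s x = x := by
  intro s hs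
  have := (Finset.sum_eq_zero_iff_of_nonneg fun _ _ => norm_nonneg _).1 h s hs
  exact sub_eq_zero.1 (norm_eq_zero.1 this)

/-- points fixed by the generators are fixed by all elements -/
theorem fixed_all {G V : Type} [Group G] [NormedAddCommGroup V] {S : Finset G}
    (hS : Subgroup.closure (S : Set G) = ⊤) {ρ : G → V → V} (hρ : IsGermHom ρ)
    (h : ∀ s ∈ S, ∀ᶠ x in 𝓝 (0 : V), ρ s x = x) (g : G) : ∀ᶠ x in 𝓝 (0 : V), ρ g x = x := by
  have hg : g ∈ Subgroup.closure (S : Set G) := by rw [hS]; trivial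
  induction hg using Subgroup.closure_induction with
  | mem s hs => exact h s hs
  | one => exact hρ.one
  | mul x y _ _ hx hy =>
    filter_upwards [hx, hy, hρ.mul x y] with z h1 h2 h3
    rw [h3, h2, h1]
  | inv x _ hx =>
    filter_upwards [hx, hρ.mul x⁻¹ x, hρ.one] with z h1 h2 h3
    rw [inv_mul_cancel, h3, h1] at h2
    exact h2.symm

open Classical in
/-- Let `G` be amenable, generated by the finite set `S`, without homomorphisms `≠ 0` to `ℝ`; `c > 0`.
There is a finite set `B` such that for every homomorphism `ρ` of `G` into the germs of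
homeomorphisms at `0` of a normed space every tame point near `0` is fixed by the `ρ(s)`, `s ∈ S`;
and `ρ` is trivial if all points near `0` are tame. -/
theorem result (G : Type) [Group G] (S : Finset G) (hS : Subgroup.closure (S : Set G) = ⊤)
    (hA : Amenable G) (hH : ∀ φ : G →* Multiplicative ℝ, φ = 1) (c C : ℝ) (hc : 0 < c) :
    ∃ B : Finset G, ∀ (V : Type) [NormedAddCommGroup V] [NormedSpace ℝ V] (ρ : G → V → V),
      IsGermHom ρ →
      (∀ᶠ x in 𝓝 (0 : V), Tame B S c C ρ x → ∀ s ∈ S, ρ s x = x) ∧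
      ((∀ᶠ x in 𝓝 (0 : V), Tame B S c C ρ x) → ∀ g, ∀ᶠ x in 𝓝 (0 : V), ρ g x = x) := by
  have key : ∃ B : Finset G, ∀ (V : Type) [NormedAddCommGroup V] [NormedSpace ℝ V] (ρ : G → V → V),
      IsGermHom ρ → ∀ᶠ x in 𝓝 (0 : V), Tame B S c C ρ x → ∀ s ∈ S, ρ s x = x := by
    by_contra hcon
    push Not at hcon
    have hfun : ∀ B : Finset G, ∃ (a : G → ℝ) (t : G), t ∈ S ∧
        ∀ k ∈ B, (∀ s ∈ S, |a (k * s) - a k| ≤ C) ∧ c ≤ a (k * t) - a k := by
      intro B
      obtain ⟨V, _, _, ρ, hρ, hx⟩ := hcon B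
      have hm : ∀ᶠ x in 𝓝 (0 : V), ∀ k ∈ B, ∀ s ∈ S, ρ (k * s) x = ρ k (ρ s x) := by
        rw [Filter.eventually_all_finset]
        intro k _
        rw [Filter.eventually_all_finset]
        intro s _
        exact hρ.mul k s
      obtain ⟨x, hx, hm⟩ := (hx.and_eventually hm).exists
      obtain ⟨⟨hT1, t, ht, ℓ, hℓ, hT2⟩, s₀, hs₀, hne⟩ := hx
      have hM : 0 < move S ρ x := by
        rcases (move_nonneg S ρ x).lt_or_eq with h | h
        · exact h
        · exact absurd (fixed_of_move h.symm s₀ hs₀) hne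
      refine ⟨fun k => ℓ (ρ k x) / move S ρ x, t, ht, fun k hk => ⟨fun s hs => ?_, ?_⟩⟩
      · dsimp only
        rw [hm k hk s hs, ← sub_div, ← map_sub, abs_div, abs_of_pos hM, div_le_iff₀ hM]
        have h1 : |ℓ (ρ k (ρ s x) - ρ k x)| ≤ ‖ρ k (ρ s x) - ρ k x‖ := by
          have := ℓ.le_opNorm (ρ k (ρ s x) - ρ k x)
          rw [Real.norm_eq_abs] at this
          exact this.trans (mul_le_of_le_one_left (norm_nonneg _) hℓ)
        exact h1.trans (hT1 k hk s hs)
      · dsimp only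
        rw [hm k hk t ht, ← sub_div, ← map_sub, le_div_iff₀ hM]
        exact hT2 k hk
    obtain ⟨a, t, _, h⟩ := Pool.MP_88da87_gt.one_fun S hS hfun
    obtain ⟨φ, hφ⟩ := Pool.MP_88da87_gt.hom_of_fun S hS hA hc a t h
    exact hφ (hH φ)
  obtain ⟨B, hB⟩ := key
  refine ⟨B, fun V _ _ ρ hρ => ⟨hB V ρ hρ, fun hT => fixed_all hS hρ fun s hs => ?_⟩⟩
  filter_upwards [hB V ρ hρ, hT] with x h1 h2
  exact h1 h2 s hs

open Classical in
/-- bi-Lipschitz holonomy of bounded turning is trivial -/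
theorem lipschitz (G : Type) [Group G] (S : Finset G) (hS : Subgroup.closure (S : Set G) = ⊤)
    (hA : Amenable G) (hH : ∀ φ : G →* Multiplicative ℝ, φ = 1) (c C : ℝ) (hc : 0 < c) :
    ∃ B : Finset G, ∀ (V : Type) [NormedAddCommGroup V] [InnerProductSpace ℝ V] (ρ : G → V → V),
      IsGermHom ρ →
      (∀ k ∈ B, ∃ r : ℝ, 0 < r ∧ ∀ x y : V, ‖x‖ < r → ‖y‖ < r →
        ‖ρ k y - ρ k x‖ ≤ C * ‖y - x‖ ∧ c * ‖y - x‖ ^ 2 ≤ inner ℝ (y - x) (ρ k y - ρ k x)) →
      ∀ g, ∀ᶠ x in 𝓝 (0 : V), ρ g x = x := by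
  rcases S.eq_empty_or_nonempty with hne | hne
  · refine ⟨∅, fun V _ _ ρ hρ _ => fixed_all hS hρ fun s hs => ?_⟩
    rw [hne] at hs
    exact absurd hs (Finset.notMem_empty s)
  have hSc : (0 : ℝ) < S.card := by exact_mod_cast hne.card_pos
  obtain ⟨B, hB⟩ := result G S hS hA hH (c / S.card) |C| (by positivity)
  refine ⟨B, fun V _ _ ρ hρ h => (hB V ρ hρ).2 ?_⟩
  have h1 : ∀ᶠ x in 𝓝 (0 : V), ∀ k ∈ B, ∀ s ∈ S, ‖ρ k (ρ s x) - ρ k x‖ ≤ C * ‖ρ s x - x‖ ∧
      c * ‖ρ s x - x‖ ^ 2 ≤ inner ℝ (ρ s x - x) (ρ k (ρ s x) - ρ k x) := by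
    rw [Filter.eventually_all_finset]
    intro k hk
    rw [Filter.eventually_all_finset]
    intro s _
    obtain ⟨r, hr, h⟩ := h k hk
    have t1 : Tendsto (ρ s) (𝓝 0) (𝓝 0) := by
      have := (hρ.cont s).self_of_nhds
      rw [ContinuousAt, hρ.zero s] at this
      exact this
    have t2 : ∀ᶠ x in 𝓝 (0 : V), ‖x‖ < r := by
      have := Metric.ball_mem_nhds (0 : V) hr
      filter_upwards [this] with x hx
      simpa using hx
    filter_upwards [t2, t1.eventually t2] with x b1 b2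
    exact h x (ρ s x) b1 b2
  filter_upwards [h1] with x hx
  obtain ⟨t, ht, hmax⟩ := S.exists_max_image (fun s => ‖ρ s x - x‖) hne
  have hM : move S ρ x ≤ S.card * ‖ρ t x - x‖ := by
    unfold move
    refine (Finset.sum_le_sum hmax).trans ?_
    rw [Finset.sum_const, nsmul_eq_mul]
  refine ⟨fun k hk s hs => ?_, t, ht, innerSL ℝ (‖ρ t x - x‖⁻¹ • (ρ t x - x)), ?_, fun k hk => ?_⟩
  · refine (hx k hk s hs).1.trans ?_
    have h2 : ‖ρ s x - x‖ ≤ move S ρ x :=
      Finset.single_le_sum (f := fun s => ‖ρ s x - x‖) (fun _ _ => norm_nonneg _) hs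
    exact mul_le_mul (le_abs_self C) h2 (norm_nonneg _) (abs_nonneg _)
  · rw [innerSL_apply_norm, norm_smul, norm_inv, norm_norm]
    rcases eq_or_ne ‖ρ t x - x‖ 0 with h0 | h0
    · rw [h0]; simp
    · rw [inv_mul_cancel₀ h0]
  · have h2 := (hx k hk t ht).2
    rw [innerSL_apply_apply, inner_smul_left]
    have h3 : c / S.card * move S ρ x ≤ c * ‖ρ t x - x‖ := by
      calc c / S.card * move S ρ x ≤ c / S.card * (S.card * ‖ρ t x - x‖) :=
            mul_le_mul_of_nonneg_left hM (by positivity)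
        _ = c * ‖ρ t x - x‖ := by field_simp
    refine h3.trans ?_
    rcases eq_or_ne ‖ρ t x - x‖ 0 with h0 | h0
    · rw [h0]; simp
    · have h4 : 0 < ‖ρ t x - x‖ := lt_of_le_of_ne (norm_nonneg _) (Ne.symm h0)
      calc c * ‖ρ t x - x‖ = ‖ρ t x - x‖⁻¹ * (c * ‖ρ t x - x‖ ^ 2) := by field_simp
        _ ≤ ‖ρ t x - x‖⁻¹ * inner ℝ (ρ t x - x) (ρ k (ρ t x) - ρ k x) :=
            mul_le_mul_of_nonneg_left h2 (by positivity)
        _ = _ := by simp

end Pool.Agent.Results.MP_88da87_gt.BoundedTurning
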