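import Pool.Agent.Lib.MP_88da87_gt.Three
import Pool.Agent.Lib.MP_88da87_gt.AfF
import Pool.Agent.Lib.MP_88da87_gt.TanLift
import Pool.Agent.Lib.MP_88da87_gt.PC

/-!
# Codimension two: holonomy which nearly preserves a field of directions or midpoints, `e(ν_L) = 0`

The germ of a transversally oriented `C⁰` foliation of codimension two along a compact leaf `L` is given by
its holonomy, a homomorphism `ρ` of `G = π₁(L)` into the group of germs at `0` of homeomorphisms of `ℝ²`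
fixing `0`; `L` is stable if and only if `ρ` is trivial (Reeb, Haefliger).  The Euler class `e(ν_L)` is the
obstruction to lifting the germs `ρ(g)` to an action `F` of `G` by germs at the end `Re w → -∞` of the universal
cover of the punctured plane, with the coordinate `w = log x`.

Let `G` be amenable, generated by the finite set `S`, without homomorphisms `≠ 0` to `ℝ`, and `Λ > 0`.  Then there
is an `ε > 0` such that `ρ` is trivial (`result`) if `e(ν_L) = 0` and, for a field of unit vectors `κ`, one of the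
following holds:

* (a) `κ` is `ε`-close to a constant, and the lifts `F(s)`, `F(s⁻¹)`, `s ∈ S`, are, at small scales in `w`,
  bi-Lipschitz with the constant `Λ` and map the direction `κ` to the direction `κ`, up to an error `ε`: in
  the plane, the field is one of logarithmic spirals, for instance of rays or circles;
* (b) the same for the germs `ρ(s)`, `ρ(s⁻¹)` themselves at `0`: the field is nearly parallel;
* (c) the `F(s)`, `F(s⁻¹)` are as in (a) with `κ` varying slowly, but not nearly constant, and the `ρ(s)` have at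
  `0` positively homogeneous tangent maps, for instance derivatives;
* (d) the germs `ρ(s)`, `ρ(s⁻¹)`, `s ∈ S`, are quasiconformal, of linear dilatation `≤ Λ` at all small scales, and
  preserve midpoints up to an error `ε`: no Lipschitz condition and no field are needed.  For `C¹` foliations this
  is satisfied, with some `Λ`, for all `ε > 0` (`of_deriv`), and it holds if the linear dilatation is at most
  `1 + δ(ε)` (`mid_of_qconf`).

Here `κ` need not be integrable, and `ε` does not depend on `κ`, `ρ`.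

* `conformal`: if the `ρ(s)`, `ρ(s⁻¹)`, `s ∈ S`, are nearly conformal, of linear dilatation `≤ 1 + ε`, then `G` need
  not be amenable.  For `C¹` foliations whose linear holonomy is trivial or conformal, this condition is satisfied
  for all `ε > 0` (`qconf_of_deriv`).
* `general`: the same as `result` for every finitely generated `G` without nontrivial total left preorders, that is,
  without nontrivial actions on the line.
* `bilip`: in particular, it suffices that the `ρ(s)`, `s ∈ S`, are bi-Lipschitz and, for some `u ≠ 0`,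
  asymptotically commute with the similarities `x ↦ e^{tu} x`, for instance are asymptotically homogeneous
  (`u = 1`) or commute asymptotically with rotations (`u = i`).
* `piecewiseC1`: it suffices that the germs `ρ(s)`, `ρ(s⁻¹)`, `s ∈ S`, are piecewise `C¹`.
* `tangent`: instead, the `ρ(s)` have at `0` positively homogeneous tangent maps (not necessarily Lipschitz) in a
  strict sense; `homogeneous`: the `ρ(s)` are positively homogeneous.

Proof of (a), (b), (c).  Otherwise there are counterexamples with `ε = 1/n`, `n → ∞`.  Let `z_g(w)` be the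
displacement `F(g)w - w` divided by `κ(w)` and by its size on the generators, `w` a point moved by some generator.
Each `F(k)` preserves, up to `o(1)`, the sign of the normal component of these displacements, at all scales
(`quad_const`, `quad_plane`, `quad_field`), and the sign of the tangential one if the normal one is `o(1)`.  So, in
the limit `l(g)` along an ultrafilter of pairs `(n, w)`, the `g` with `Im l(g) ≥ 0` form a total left preorder, hence
`Im l = 0`; then the `g` with `l(g) ≥ 0` form one, hence `l = 0`, while `|l(s)|` is not small for all `s ∈ S`.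

Proof of `conformal`.  Limits of rescaled germs are similarities (`max_circ`, `hex_mid`, `sim_of_mono`).  At the
scale `|x|` of a point `x`, the lifts are translations up to `o(1)` (`unit_step`), so the displacements `F(g)w - w`
are additive up to `o(1 + |F(g)w - w|)`, hence `o(1)`.  If `x` is moved, let `τ |x|`, `τ < 1`, be the scale at which
the deviations of the `ρ(s)` from the identity are of size `δ` (`dev`).  The limits at this scale form an action of
`G` on `ℂ` by similarities, `δ`-close to the identity on `S`, and not the identity.  For small `δ` the rotational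
parts of such an action are trivial (`isolate`), and then the action is by translations, hence trivial.

Proof of (d).  Limits of rescaled germs are affine (`aff_of_mid`).  The displacements `F(g)w - w` are additive up to
`O(1) + o(|F(g)w - w|)` (`dc_of_steps`), hence bounded (`disp_bdd`).  So at the scale `|x|` the limits of the germs
form a linear action of `G`, with a lift to the universal cover of the punctured plane; as `G` has no nontrivial
action on the line, the limits preserve the rays, hence are the identity (`lin_lift_trivial`).  The second step is as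
above, with affine actions close to the identity (`aff_trivial`).
-/

set_option autoImplicit false

namespace Pool.Agent.Results.MP_88da87_gt.PiecewiseC1

open Filter Topology

open Classical in
/-- amenable: Følner's condition -/
def Amenable (G : Type) [Group G] : Prop :=
  ∀ (K : Finset G) (δ : ℝ), 0 < δ → ∃ F : Finset G, F.Nonempty ∧
    ∀ k ∈ K, (((F.image (fun x => k * x)) \ F).card : ℝ) ≤ δ * F.card

/-- `ρ` is a homomorphism of `G` into the group of germs at `0` of homeomorphisms of the plane fixing `0` -/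
structure IsGermHom {G : Type} [Group G] (ρ : G → ℂ → ℂ) : Prop where
  zero : ∀ g, ρ g 0 = 0
  cont : ∀ g, ∀ᶠ x in 𝓝 (0 : ℂ), ContinuousAt (ρ g) x
  one : ∀ᶠ x in 𝓝 (0 : ℂ), ρ 1 x = x
  mul : ∀ g h, ∀ᶠ x in 𝓝 (0 : ℂ), ρ (g * h) x = ρ g (ρ h x)

/-- `F` is an action of `G` by germs at `Re w = -∞` which lifts `ρ` through `x = exp w`: the lift of `ρ` to the
universal cover of the punctured plane near `0` -/
structure IsLift {G : Type} [Group G] (ρ F : G → ℂ → ℂ) : Prop where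
  exp : ∀ g, ∃ R : ℝ, ∀ w : ℂ, w.re < R →
    ContinuousAt (F g) w ∧ Complex.exp (F g w) = ρ g (Complex.exp w)
  period : ∀ g, ∃ R : ℝ, ∀ w : ℂ, w.re < R →
    F g (w + 2 * Real.pi * Complex.I) = F g w + 2 * Real.pi * Complex.I
  one : ∃ R : ℝ, ∀ w : ℂ, w.re < R → F 1 w = w
  mul : ∀ g h, ∃ R : ℝ, ∀ w : ℂ, w.re < R → F (g * h) w = F g (F h w)

/-- the filter `Re w → -∞` -/
def LogEnd : Filter ℂ := Filter.comap Complex.re Filter.atBot

/-- at points `w` close to the end `E`, small increments `v` are mapped by `f` to increments between `|v|/Λ` and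
`Λ|v|`, and small increments in the direction `κ` to increments in the direction `κ`, up to `ε` -/
def Near (E : Filter ℂ) (κ : ℂ → ℂ) (Λ ε : ℝ) (f : ℂ → ℂ) : Prop :=
  ∃ r : ℝ, 0 < r ∧ ∀ᶠ w in E,
    (∀ v : ℂ, ‖v‖ ≤ r → ‖v‖ ≤ Λ * ‖f (w + v) - f w‖ ∧ ‖f (w + v) - f w‖ ≤ Λ * ‖v‖) ∧
    ∀ t : ℝ, |t| ≤ r → ∃ p : ℝ, 0 ≤ p ∧
      ‖f (w + t * κ w) - f w - p * (t * κ (f w))‖ ≤ ε * |t|

/-- the field `κ` is `ε`-close to a constant field of unit vectors -/
def Const (E : Filter ℂ) (κ : ℂ → ℂ) (ε : ℝ) : Prop :=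
  ∃ u : ℂ, ‖u‖ = 1 ∧ ∀ᶠ w in E, ‖κ w - u‖ ≤ ε

/-- the field `κ` varies slowly at the end `Re w → -∞` -/
def Slow (κ : ℂ → ℂ) (ε : ℝ) : Prop :=
  ∃ r R : ℝ, 0 < r ∧ ∀ w v : ℂ, w.re < R → ‖v‖ ≤ r → ‖κ (w + v) - κ w‖ ≤ ε

/-- `f` has at `0` a positively homogeneous tangent map, which is a homeomorphism: `f x = A x + o(|x|)` -/
def HasTangent (f : ℂ → ℂ) : Prop :=
  ∃ A : ℂ ≃ₜ ℂ, (∀ (r : ℝ) (x : ℂ), 0 < r → A (r * x) = r * A x) ∧
    ∀ ε : ℝ, 0 < ε → ∀ᶠ x in 𝓝 (0 : ℂ), ‖f x - A x‖ ≤ ε * ‖x‖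

/-- near `0` the linear dilatation of `f` is at most `K`, at all small scales: circles around `x` are mapped to
curves which are circles around `f x` up to the factor `K` (the metric form of quasiconformality) -/
def QConf (K : ℝ) (f : ℂ → ℂ) : Prop :=
  ∃ r : ℝ, 0 < r ∧ ∀ x y z : ℂ, ‖x‖ < r → ‖y‖ < r → ‖z‖ < r → ‖y - x‖ = ‖z - x‖ →
    ‖f y - f x‖ ≤ K * ‖f z - f x‖

/-- near `0` the map `f` preserves midpoints, at all small scales, up to an error `ε` -/
def Mid (ε : ℝ) (f : ℂ → ℂ) : Prop :=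
  ∃ r : ℝ, 0 < r ∧ ∀ x v : ℂ, ‖x‖ < r → ‖v‖ < r →
    ‖f (x + v) + f (x - v) - 2 * f x‖ ≤ ε * ‖f (x + v) - f x‖

/-- `f` is bi-Lipschitz near `0` -/
def BiLip (f : ℂ → ℂ) : Prop :=
  ∃ c C r : ℝ, 0 < c ∧ 0 < C ∧ 0 < r ∧ ∀ x y : ℂ, ‖x‖ < r → ‖y‖ < r →
    c * ‖y - x‖ ≤ ‖f y - f x‖ ∧ ‖f y - f x‖ ≤ C * ‖y - x‖

/-- `f` asymptotically commutes with the similarities `x ↦ e^{tu} x`:
`f (e^{tu} x) = e^{tu} f x + o(|t| |x|)` as `x → 0`, `t → 0`, `t` real -/
def AsympComm (u : ℂ) (f : ℂ → ℂ) : Prop :=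
  ∀ ε : ℝ, 0 < ε → ∃ r : ℝ, 0 < r ∧ ∀ (x : ℂ) (t : ℝ), ‖x‖ < r → |t| < r →
    ‖f (Complex.exp (t * u) * x) - Complex.exp (t * u) * f x‖ ≤ ε * |t| * ‖x‖

/-- `P = {g | g ≥ 1}` for a total left preorder on `G` -/
structure IsCone {G : Type} [Group G] (P : Set G) : Prop where
  mul : ∀ g h, g ∈ P → h ∈ P → g * h ∈ P
  tot : ∀ g, g ∈ P ∨ g⁻¹ ∈ P

/-- `f` is piecewise `C¹`: near `0` each value of `f` is a value of one of finitely many maps which fix `0` and
are strictly differentiable at `0` -/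
def PieceC1 (f : ℂ → ℂ) : Prop :=
  ∃ (n : ℕ) (p : Fin n → ℂ → ℂ) (L : Fin n → ℂ →L[ℝ] ℂ),
    (∀ i, p i 0 = 0 ∧ HasStrictFDerivAt (p i) (L i) 0) ∧ ∀ᶠ x in 𝓝 (0 : ℂ), ∃ i, f x = p i x

/-- points fixed by the generators are fixed by all elements -/
theorem fixed_all {G : Type} [Group G] {S : Finset G}
    (hS : Subgroup.closure (S : Set G) = ⊤) {ρ : G → ℂ → ℂ} (hρ : IsGermHom ρ)
    (h : ∀ s ∈ S, ∀ᶠ x in 𝓝 (0 : ℂ), ρ s x = x) (g : G) : ∀ᶠ x in 𝓝 (0 : ℂ), ρ g x = x := by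
  have hg : g ∈ Subgroup.closure (S : Set G) := by rw [hS]; trivial
  induction hg using Subgroup.closure_induction with
  | mem s hs => exact h s hs
  | one => exact hρ.one
  | mul x y _ _ hx hy =>
    filter_upwards [hx, hy, hρ.mul x y] with z h1 h2 h3
    rw [h3, h2, h1]
  | inv x _ hx =>
    filter_upwards [hx, hρ.mul x⁻¹ x, hρ.one] with z h1 h2 h3
    rw [inv_mul_cancel, h3, h1] at h2
    exact h2.symm

/-- a germ is trivial if its lift is -/
theorem fixed_of_lift {G : Type} [Group G] {ρ F : G → ℂ → ℂ} (hρ : IsGermHom ρ) (hF : IsLift ρ F)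
    {s : G} (h2 : ∀ᶠ w in LogEnd, F s w = w) : ∀ᶠ x in 𝓝 (0 : ℂ), ρ s x = x := by
  obtain ⟨R, h2⟩ := Pool.MP_88da87_gt.ev_LL.1 h2
  obtain ⟨R', h3⟩ := hF.exp s
  filter_upwards [Pool.MP_88da87_gt.small_ball (V := ℂ) (Real.exp (min R R')) (Real.exp_pos _)]
    with x hx
  rcases eq_or_ne x 0 with h | h
  · rw [h, hρ.zero]
  have hre : (Complex.log x).re < min R R' := by
    rw [Complex.log_re, Real.log_lt_iff_lt_exp (norm_pos_iff.2 h)]
    exact hx
  have e1 := h2 (Complex.log x) (hre.trans_le (min_le_left _ _))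
  have e2 := (h3 (Complex.log x) (hre.trans_le (min_le_right _ _))).2
  rw [e1, Complex.exp_log h] at e2
  exact e2.symm

/-- the period, as a real multiple of `i` -/
theorem IsLift.period' {G : Type} [Group G] {ρ F : G → ℂ → ℂ} (hF : IsLift ρ F) (g : G) :
    ∃ R : ℝ, ∀ w : ℂ, w.re < R → F g (w + (2 * Real.pi : ℝ) * Complex.I) =
      F g w + (2 * Real.pi : ℝ) * Complex.I := by
  obtain ⟨R, h⟩ := hF.period g
  refine ⟨R, fun w hw => ?_⟩
  have := h w hw
  push_cast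
  exact this

/-- from circles to discs -/
theorem IsGermHom.qsym {G : Type} [Group G] {ρ : G → ℂ → ℂ} (hρ : IsGermHom ρ) {g : G} {ε : ℝ}
    (h : QConf (1 + ε) (ρ g)) : Pool.MP_88da87_gt.QSym ε (ρ g) := by
  have h1 : ∀ g, ∀ᶠ x in 𝓝 (0 : ℂ), ρ g (ρ g⁻¹ x) = x := fun g =>
    Pool.MP_88da87_gt.inv_right hρ.one hρ.mul g
  have h2 : ∀ g, ∀ᶠ x in 𝓝 (0 : ℂ), ρ g⁻¹ (ρ g x) = x := fun g => by
    have := h1 g⁻¹
    rwa [inv_inv] at this
  exact Pool.MP_88da87_gt.qsym_of_circ (hρ.cont g) (hρ.cont g⁻¹)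
    (Pool.MP_88da87_gt.tend_zero hρ.zero hρ.cont g) (h2 g) (h1 g) h

/-- Nearly conformal holonomy.  Let `G` be generated by the finite set `S`, without homomorphisms `≠ 0` to `ℝ`.
There is an `ε > 0` such that the following holds.  Let `ρ` be a homomorphism of `G` into the germs at `0` of
homeomorphisms of the plane fixing `0`, with a lift `F` to the universal cover of the punctured plane
(`e(ν_L) = 0`), and let the germs `ρ(s)`, `ρ(s⁻¹)`, `s ∈ S`, have linear dilatation `≤ 1 + ε`.  Then `ρ` is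
trivial. -/
theorem conformal (G : Type) [Group G] (S : Finset G) (hS : Subgroup.closure (S : Set G) = ⊤)
    (hH : ∀ φ : G →* Multiplicative ℝ, φ = 1) :
    ∃ ε : ℝ, 0 < ε ∧ ∀ (ρ F : G → ℂ → ℂ), IsGermHom ρ → IsLift ρ F →
      (∀ s ∈ S, QConf (1 + ε) (ρ s) ∧ QConf (1 + ε) (ρ s⁻¹)) →
      ∀ g, ∀ᶠ x in 𝓝 (0 : ℂ), ρ g x = x := by
  obtain ⟨ε, hε, H⟩ := Pool.MP_88da87_gt.qs_fixed S hS hH
  exact ⟨ε, hε, fun ρ F hρ hF hs => fixed_all hS hρ (H ρ F hρ.zero hρ.cont hρ.one hρ.mul hF.exp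
    (Pool.MP_88da87_gt.ev_LL.2 hF.one) (fun g h => Pool.MP_88da87_gt.ev_LL.2 (hF.mul g h))
    hF.period' fun s hs' => ⟨hρ.qsym (hs s hs').1, hρ.qsym (hs s hs').2⟩)⟩

/-- germs with a strict derivative at `0` which is conformal, `f y - f x = c (y - x) + o(y - x)` as `x, y → 0`, for
instance `C¹` germs with derivative the identity at `0`, satisfy the hypothesis of `conformal` for all `ε > 0` -/
theorem qconf_of_deriv {f : ℂ → ℂ} {c : ℂ} (hc : c ≠ 0) (h : HasStrictDerivAt f c 0) {ε : ℝ}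
    (hε : 0 < ε) : QConf (1 + ε) f := by
  have hcn : 0 < ‖c‖ := norm_pos_iff.2 hc
  obtain ⟨η, hη⟩ : ∃ η : ℝ, η = ‖c‖ * ε / (2 + ε) := ⟨_, rfl⟩
  have hη0 : 0 < η := by rw [hη]; positivity
  have h1 := h.isLittleO.def hη0
  obtain ⟨r, hr, H⟩ := Metric.eventually_nhds_iff.1 h1
  have key : ∀ x y : ℂ, ‖x‖ < r → ‖y‖ < r → ‖f y - f x - (y - x) * c‖ ≤ η * ‖y - x‖ := by
    intro x y hx hy
    have := H (y := (y, x)) (by
      rw [dist_eq_norm, Prod.norm_def]
      simp only [Prod.fst_sub, Prod.snd_sub, sub_zero]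
      exact max_lt hy hx)
    simpa using this
  refine ⟨r, hr, fun x y z hx hy hz hxyz => ?_⟩
  have e1 := key x y hx hy
  have e2 := key x z hx hz
  have e3 : ‖f y - f x‖ ≤ (‖c‖ + η) * ‖y - x‖ := by
    have e4 : f y - f x = (f y - f x - (y - x) * c) + (y - x) * c := by ring
    have e5 := norm_add_le (f y - f x - (y - x) * c) ((y - x) * c)
    rw [← e4, norm_mul] at e5
    linarith
  have e6 : (‖c‖ - η) * ‖z - x‖ ≤ ‖f z - f x‖ := by
    have e4 : (z - x) * c = (f z - f x) - (f z - f x - (z - x) * c) := by ring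
    have e5 := norm_sub_le (f z - f x) (f z - f x - (z - x) * c)
    rw [← e4, norm_mul] at e5
    linarith
  have e7 : ‖c‖ + η = (1 + ε) * (‖c‖ - η) := by
    rw [hη]
    field_simp
    ring
  calc ‖f y - f x‖ ≤ (‖c‖ + η) * ‖y - x‖ := e3
    _ = (‖c‖ + η) * ‖z - x‖ := by rw [hxyz]
    _ = (1 + ε) * ((‖c‖ - η) * ‖z - x‖) := by rw [e7]; ring
    _ ≤ (1 + ε) * ‖f z - f x‖ := mul_le_mul_of_nonneg_left e6 (by positivity)

/-- germs with a strict derivative at `0` which is invertible, `f y - f x = L (y - x) + o(y - x)` as `x, y → 0`, for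
instance the germs of `C¹` diffeomorphisms, satisfy the hypothesis (d) of `result`, with some `Λ`, for all `ε > 0` -/
theorem of_deriv {f : ℂ → ℂ} {L : ℂ ≃L[ℝ] ℂ} (h : HasStrictFDerivAt f (L : ℂ →L[ℝ] ℂ) 0) :
    (∃ K : ℝ, QConf K f) ∧ ∀ ε : ℝ, 0 < ε → Mid ε f := by
  obtain ⟨c, hc, hcL⟩ : ∃ c : ℝ, 0 < c ∧ ∀ v : ℂ, c * ‖v‖ ≤ ‖L v‖ := by
    obtain ⟨C, hC⟩ : ∃ C : ℝ, C = ‖(L.symm : ℂ →L[ℝ] ℂ)‖ + 1 := ⟨_, rfl⟩
    have hC0 : 0 < C := by rw [hC]; positivity
    refine ⟨1 / C, by positivity, fun v => ?_⟩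
    rw [div_mul_eq_mul_div, one_mul, div_le_iff₀ hC0]
    have h1 := (L.symm : ℂ →L[ℝ] ℂ).le_opNorm (L v)
    rw [ContinuousLinearEquiv.coe_coe, ContinuousLinearEquiv.symm_apply_apply] at h1
    refine h1.trans ?_
    rw [mul_comm]
    exact mul_le_mul_of_nonneg_left (by rw [hC]; linarith) (norm_nonneg _)
  have hev : ∀ η : ℝ, 0 < η → ∃ r : ℝ, 0 < r ∧ ∀ x y : ℂ, ‖x‖ < r → ‖y‖ < r →
      ‖f y - f x - L (y - x)‖ ≤ η * ‖y - x‖ := by
    intro η hη
    obtain ⟨r, hr, H⟩ := Metric.eventually_nhds_iff.1 (h.isLittleO.def hη)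
    refine ⟨r, hr, fun x y hx hy => ?_⟩
    have := H (y := (y, x)) (by
      rw [dist_eq_norm, Prod.norm_def]
      simp only [Prod.fst_sub, Prod.snd_sub, sub_zero]
      exact max_lt hy hx)
    simpa using this
  constructor
  · obtain ⟨r, hr, H⟩ := hev (c / 2) (by positivity)
    refine ⟨(‖(L : ℂ →L[ℝ] ℂ)‖ + c / 2) / (c / 2), r, hr, fun x y z hx hy hz hxyz => ?_⟩
    have e1 := H x y hx hy
    have e2 := H x z hx hz
    have e3 : ‖f y - f x‖ ≤ (‖(L : ℂ →L[ℝ] ℂ)‖ + c / 2) * ‖y - x‖ := by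
      have e4 : f y - f x = (f y - f x - L (y - x)) + L (y - x) := by ring
      have e5 := norm_add_le (f y - f x - L (y - x)) (L (y - x))
      rw [← e4] at e5
      have e6 := (L : ℂ →L[ℝ] ℂ).le_opNorm (y - x)
      rw [ContinuousLinearEquiv.coe_coe] at e6
      linarith
    have e6 : c / 2 * ‖z - x‖ ≤ ‖f z - f x‖ := by
      have e4 : L (z - x) = (f z - f x) - (f z - f x - L (z - x)) := by ring
      have e5 := norm_sub_le (f z - f x) (f z - f x - L (z - x))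
      rw [← e4] at e5
      have e7 := hcL (z - x)
      linarith
    have hc2 : c / 2 ≠ 0 := by positivity
    calc ‖f y - f x‖ ≤ (‖(L : ℂ →L[ℝ] ℂ)‖ + c / 2) * ‖y - x‖ := e3
      _ = (‖(L : ℂ →L[ℝ] ℂ)‖ + c / 2) / (c / 2) * (c / 2 * ‖z - x‖) := by
          rw [hxyz]; field_simp
      _ ≤ (‖(L : ℂ →L[ℝ] ℂ)‖ + c / 2) / (c / 2) * ‖f z - f x‖ :=
          mul_le_mul_of_nonneg_left e6 (by positivity)
  · intro ε hε
    obtain ⟨η, hη⟩ : ∃ η : ℝ, η = c * ε / (2 + ε) := ⟨_, rfl⟩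
    have hη0 : 0 < η := by rw [hη]; positivity
    obtain ⟨r, hr, H⟩ := hev η hη0
    refine ⟨r / 2, by positivity, fun x v hx hv => ?_⟩
    have hx' : ‖x‖ < r := by linarith
    have e1 := H x (x + v) hx' ((norm_add_le _ _).trans_lt (by linarith))
    have e2 := H x (x - v) hx' ((norm_sub_le _ _).trans_lt (by linarith))
    rw [add_sub_cancel_left] at e1
    rw [sub_sub_cancel_left, map_neg, norm_neg] at e2
    have e3 : f (x + v) + f (x - v) - 2 * f x =
        (f (x + v) - f x - L v) + (f (x - v) - f x - -L v) := by ring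
    have e4 : (c - η) * ‖v‖ ≤ ‖f (x + v) - f x‖ := by
      have e4 : L v = (f (x + v) - f x) - (f (x + v) - f x - L v) := by ring
      have e5 := norm_sub_le (f (x + v) - f x) (f (x + v) - f x - L v)
      rw [← e4] at e5
      have e7 := hcL v
      linarith
    have e5 : 2 * η = ε * (c - η) := by
      rw [hη]
      field_simp
      ring
    rw [e3]
    calc _ ≤ η * ‖v‖ + η * ‖v‖ := (norm_add_le _ _).trans (add_le_add e1 e2)
      _ = (2 * η) * ‖v‖ := by ring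
      _ = ε * ((c - η) * ‖v‖) := by rw [e5]; ring
      _ ≤ ε * ‖f (x + v) - f x‖ := mul_le_mul_of_nonneg_left e4 hε.le

/-- nearly conformal germs satisfy the hypothesis (d) of `result` -/
theorem mid_of_qconf {ε : ℝ} (hε : 0 < ε) : ∃ δ : ℝ, 0 < δ ∧ δ ≤ 1 ∧
    ∀ (G : Type) [Group G] (ρ : G → ℂ → ℂ), IsGermHom ρ → ∀ g, QConf (1 + δ) (ρ g) →
      QConf 2 (ρ g) ∧ Mid ε (ρ g) := by
  obtain ⟨δ, hδ, hδ1, H⟩ := Pool.MP_88da87_gt.mid_of_qsym hε
  refine ⟨δ, hδ, hδ1, fun G _ ρ hρ g h => ⟨?_, ?_⟩⟩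
  · obtain ⟨r, hr, h⟩ := h
    exact ⟨r, hr, fun x y z hx hy hz hxyz => (h x y z hx hy hz hxyz).trans
      (mul_le_mul_of_nonneg_right (by linarith) (norm_nonneg _))⟩
  · obtain ⟨r, hr, h⟩ := H (ρ g) (hρ.qsym h)
    refine ⟨r, hr, fun x v hx hv => ?_⟩
    have e1 : ρ g (x + v) + ρ g (x - v) - 2 * ρ g x =
        (ρ g (x - v) - ρ g x) + (ρ g (x + v) - ρ g x) := by ring
    rw [e1]
    exact h x v hx hv

/-- Let `G` be generated by the finite set `S`, without total left preorders `≠ G` (equivalently, without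
nontrivial actions on the line).  For every `Λ` there is an `ε > 0` such that the following holds.  Let `ρ` be a
homomorphism of `G` into the germs at `0` of homeomorphisms of the plane fixing `0`, with a lift `F` to the
universal cover of the punctured plane, `κ` a field of unit vectors, and suppose that
(a) `κ` is `ε`-close to a constant at the end `Re w → -∞`, and for `s ∈ S` the germs `F(s)`, `F(s⁻¹)` are
bi-Lipschitz at small scales with the constant `Λ` and preserve the direction `κ` up to `ε`, or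
(b) the same for the germs `ρ(s)`, `ρ(s⁻¹)` at `0`, or
(c) `κ` varies slowly, the `F(s)`, `F(s⁻¹)` are as in (a) and the `ρ(s)` have positively homogeneous tangent maps,
or (d) the germs `ρ(s)`, `ρ(s⁻¹)` have linear dilatation `≤ Λ` and preserve midpoints up to `ε`.
Then `ρ` is trivial. -/
theorem general (G : Type) [Group G] (S : Finset G) (hS : Subgroup.closure (S : Set G) = ⊤)
    (hU : ∀ P : Set G, IsCone P → P = Set.univ) (Λ : ℝ) :
    ∃ ε : ℝ, 0 < ε ∧ ∀ (ρ F : G → ℂ → ℂ) (κ : ℂ → ℂ), IsGermHom ρ → IsLift ρ F →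
      (∀ w, ‖κ w‖ = 1) →
      ((Const LogEnd κ ε ∧ ∀ s ∈ S, Near LogEnd κ Λ ε (F s) ∧ Near LogEnd κ Λ ε (F s⁻¹)) ∨
        (Const (𝓝 0) κ ε ∧ ∀ s ∈ S, Near (𝓝 0) κ Λ ε (ρ s) ∧ Near (𝓝 0) κ Λ ε (ρ s⁻¹)) ∨
        (Slow κ ε ∧ ∀ s ∈ S, HasTangent (ρ s) ∧
          Near LogEnd κ Λ ε (F s) ∧ Near LogEnd κ Λ ε (F s⁻¹)) ∨
        ∀ s ∈ S, (QConf Λ (ρ s) ∧ Mid ε (ρ s)) ∧ QConf Λ (ρ s⁻¹) ∧ Mid ε (ρ s⁻¹)) →
      ∀ g, ∀ᶠ x in 𝓝 (0 : ℂ), ρ g x = x := by
  have hU' : ∀ P : Set G, Pool.MP_88da87_gt.IsCone P → P = Set.univ := fun P hP =>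
    hU P ⟨hP.mul, hP.tot⟩
  obtain ⟨ε₁, hε₁, H⟩ := Pool.MP_88da87_gt.near_three S hS hU' Λ
  obtain ⟨ε₂, hε₂, H'⟩ := Pool.MP_88da87_gt.af_fixed S hS hU' Λ
  have hm1 : min ε₁ ε₂ ≤ ε₁ := min_le_left _ _
  have hm2 : min ε₁ ε₂ ≤ ε₂ := min_le_right _ _
  refine ⟨min ε₁ ε₂, by positivity, fun ρ F κ hρ hF hκ hcase => ?_⟩
  have hN : ∀ {E : Filter ℂ} {f : ℂ → ℂ}, Near E κ Λ (min ε₁ ε₂) f → Near E κ Λ ε₁ f :=
    fun h => Pool.MP_88da87_gt.Near.mono h le_rfl hm1
  have ht := Pool.MP_88da87_gt.tend_zero hρ.zero hρ.cont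
  have hF1 := Pool.MP_88da87_gt.ev_LL.2 hF.one
  have hFm := fun g h => Pool.MP_88da87_gt.ev_LL.2 (hF.mul g h)
  have key := H ρ F κ hρ.zero hρ.one hρ.mul ht hF.exp hF1 hFm
    (fun g => Pool.MP_88da87_gt.lift_end (ht g) (hF.exp g)) hF.period' hκ
  rcases hcase with ⟨⟨u, hu1, hu2⟩, h2⟩ | ⟨⟨u, hu1, hu2⟩, h2⟩ | ⟨⟨r, R, hr, h1⟩, h2⟩ | h2
  · rcases key (Or.inl ⟨⟨u, hu1, hu2.mono fun w hw => hw.trans hm1⟩,
      fun s hs => ⟨hN (h2 s hs).1, hN (h2 s hs).2⟩⟩) with h | h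
    · exact fixed_all hS hρ fun s hs => fixed_of_lift hρ hF (h s hs)
    · exact fixed_all hS hρ h
  · rcases key (Or.inr (Or.inl ⟨⟨u, hu1, hu2.mono fun w hw => hw.trans hm1⟩,
      fun s hs => ⟨hN (h2 s hs).1, hN (h2 s hs).2⟩⟩)) with h | h
    · exact fixed_all hS hρ fun s hs => fixed_of_lift hρ hF (h s hs)
    · exact fixed_all hS hρ h
  · rcases key (Or.inr (Or.inr ⟨⟨⟨r, R, hr, fun w v hw hv => (h1 w v hw hv).trans hm1⟩,
      fun s _ => (Pool.MP_88da87_gt.tan_lift hS hU' hρ.zero hρ.cont hρ.one hρ.mul hF.exp hF1 hFm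
        hF.period' (fun s hs => (h2 s hs).1) s).2⟩,
      fun s hs => ⟨hN (h2 s hs).2.1, hN (h2 s hs).2.2⟩⟩)) with h | h
    · exact fixed_all hS hρ fun s hs => fixed_of_lift hρ hF (h s hs)
    · exact fixed_all hS hρ h
  · have hQ : ∀ g, QConf Λ (ρ g) → Mid (min ε₁ ε₂) (ρ g) → Pool.MP_88da87_gt.QMid Λ ε₂ (ρ g) := by
      intro g h3 ⟨r, hr, h4⟩
      have e0 : 1 + (Λ - 1) = Λ := by ring
      obtain ⟨r', hr', h5⟩ := hρ.qsym (g := g) (ε := Λ - 1) (by rw [e0]; exact h3)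
      rw [e0] at h5
      refine ⟨⟨r', hr', h5⟩, ⟨r, hr, fun x v hx hv => ?_⟩⟩
      have e1 : (ρ g (x - v) - ρ g x) + (ρ g (x + v) - ρ g x) =
          ρ g (x + v) + ρ g (x - v) - 2 * ρ g x := by ring
      rw [e1]
      exact (h4 x v hx hv).trans (mul_le_mul_of_nonneg_right hm2 (norm_nonneg _))
    exact fixed_all hS hρ (H' ρ F hρ.zero hρ.cont hρ.one hρ.mul hF.exp hF1 hFm hF.period'
      fun s hs => ⟨hQ s (h2 s hs).1.1 (h2 s hs).1.2, hQ s⁻¹ (h2 s hs).2.1 (h2 s hs).2.2⟩)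

/-- Let `G` be amenable, generated by the finite set `S`, without homomorphisms `≠ 0` to `ℝ`.  For every `Λ` there
is an `ε > 0` such that the following holds.  Let `ρ` be a homomorphism of `G` into the germs at `0` of
homeomorphisms of the plane fixing `0`, with a lift `F` to the universal cover of the punctured plane
(`e(ν_L) = 0`), `κ` a field of unit vectors, and suppose that
(a) `κ` is `ε`-close to a constant at the end `Re w → -∞`, and for `s ∈ S` the germs `F(s)`, `F(s⁻¹)` are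
bi-Lipschitz at small scales with the constant `Λ` and preserve the direction `κ` up to `ε`, or
(b) the same for the germs `ρ(s)`, `ρ(s⁻¹)` at `0`, or
(c) `κ` varies slowly, the `F(s)`, `F(s⁻¹)` are as in (a) and the `ρ(s)` have positively homogeneous tangent maps,
or (d) the germs `ρ(s)`, `ρ(s⁻¹)` have linear dilatation `≤ Λ` and preserve midpoints up to `ε`.
Then `ρ` is trivial. -/
theorem result (G : Type) [Group G] (S : Finset G) (hS : Subgroup.closure (S : Set G) = ⊤)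
    (hA : Amenable G) (hH : ∀ φ : G →* Multiplicative ℝ, φ = 1) (Λ : ℝ) :
    ∃ ε : ℝ, 0 < ε ∧ ∀ (ρ F : G → ℂ → ℂ) (κ : ℂ → ℂ), IsGermHom ρ → IsLift ρ F →
      (∀ w, ‖κ w‖ = 1) →
      ((Const LogEnd κ ε ∧ ∀ s ∈ S, Near LogEnd κ Λ ε (F s) ∧ Near LogEnd κ Λ ε (F s⁻¹)) ∨
        (Const (𝓝 0) κ ε ∧ ∀ s ∈ S, Near (𝓝 0) κ Λ ε (ρ s) ∧ Near (𝓝 0) κ Λ ε (ρ s⁻¹)) ∨
        (Slow κ ε ∧ ∀ s ∈ S, HasTangent (ρ s) ∧
          Near LogEnd κ Λ ε (F s) ∧ Near LogEnd κ Λ ε (F s⁻¹)) ∨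
        ∀ s ∈ S, (QConf Λ (ρ s) ∧ Mid ε (ρ s)) ∧ QConf Λ (ρ s⁻¹) ∧ Mid ε (ρ s⁻¹)) →
      ∀ g, ∀ᶠ x in 𝓝 (0 : ℂ), ρ g x = x :=
  general G S hS (fun P hP => Pool.MP_88da87_gt.cone_trivial S hS hA hH P ⟨hP.mul, hP.tot⟩) Λ

/-- bi-Lipschitz holonomy: the `ρ(s)`, `s ∈ S`, are bi-Lipschitz and asymptotically commute with the similarities
`x ↦ e^{tu} x` -/
theorem bilip (G : Type) [Group G] (S : Finset G) (hS : Subgroup.closure (S : Set G) = ⊤)
    (hA : Amenable G) (hH : ∀ φ : G →* Multiplicative ℝ, φ = 1)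
    (ρ F : G → ℂ → ℂ) (hρ : IsGermHom ρ) (hF : IsLift ρ F) (u : ℂ) (hu : u ≠ 0)
    (hs : ∀ s ∈ S, BiLip (ρ s) ∧ AsympComm u (ρ s)) :
    ∀ g, ∀ᶠ x in 𝓝 (0 : ℂ), ρ g x = x := by
  have hun : 0 < ‖u‖ := norm_pos_iff.2 hu
  have hb := Pool.MP_88da87_gt.bilip_all hS hρ.zero hρ.cont hρ.one hρ.mul fun s h => (hs s h).1
  have hT : ∀ g, Pool.MP_88da87_gt.Tame (ρ g) := fun g => ⟨hρ.zero g, hb g⟩
  -- the constants
  have hl : ∀ g, ∃ Λ : ℝ, ∃ r : ℝ, 0 < r ∧ ∃ R : ℝ, ∀ w v : ℂ, w.re < R → ‖v‖ ≤ r →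
      ‖v‖ ≤ Λ * ‖F g (w + v) - F g w‖ ∧ ‖F g (w + v) - F g w‖ ≤ Λ * ‖v‖ := by
    intro g
    obtain ⟨c, K, r, R, hc, hK, hr, H⟩ := Pool.MP_88da87_gt.LogLift.lip (hF.exp g) (hT g)
    refine ⟨max K (1 / c), r, hr, R, fun w v hw hv => ⟨?_, ?_⟩⟩
    · have h1 := (H w v hw hv).1
      have h2 : ‖v‖ ≤ 1 / c * ‖F g (w + v) - F g w‖ := by
        rw [div_mul_eq_mul_div, one_mul, le_div_iff₀ hc]
        linarith
      exact h2.trans (mul_le_mul_of_nonneg_right (le_max_right _ _) (norm_nonneg _))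
    · exact (H w v hw hv).2.trans (mul_le_mul_of_nonneg_right (le_max_left _ _) (norm_nonneg _))
  choose Λ hΛ using hl
  obtain ⟨Λ₀, hΛ₀⟩ : ∃ Λ₀ : ℝ, ∀ s ∈ S, Λ s ≤ Λ₀ ∧ Λ s⁻¹ ≤ Λ₀ := by
    refine ⟨∑ s ∈ S, (|Λ s| + |Λ s⁻¹|), fun s hs' => ?_⟩
    have := Finset.single_le_sum (f := fun s => |Λ s| + |Λ s⁻¹|) (fun _ _ => by positivity) hs'
    have h1 := le_abs_self (Λ s)
    have h2 := le_abs_self (Λ s⁻¹)
    have h3 := abs_nonneg (Λ s)
    have h4 := abs_nonneg (Λ s⁻¹)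
    exact ⟨by linarith, by linarith⟩
  obtain ⟨ε, hε, H⟩ := result G S hS hA hH Λ₀
  have key : ∀ g, Λ g ≤ Λ₀ → AsympComm u (ρ g) → Near LogEnd (fun _ => u / ‖u‖) Λ₀ ε (F g) := by
    intro g hg hc
    obtain ⟨r, hr, R, h1⟩ := hΛ g
    obtain ⟨r', R', hr', h2⟩ := Pool.MP_88da87_gt.LogLift.dhom (hF.exp g) (hT g) hc
      (ε := ε * ‖u‖) (by positivity)
    refine ⟨min r (r' * ‖u‖), by positivity, ?_⟩
    show ∀ᶠ w in Pool.MP_88da87_gt.LL, _
    rw [Pool.MP_88da87_gt.ev_LL]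
    refine ⟨min R R', fun w hw => ⟨fun v hv => ?_, fun t ht => ⟨1, zero_le_one, ?_⟩⟩⟩
    · have h3 := h1 w v (hw.trans_le (min_le_left _ _)) (hv.trans (min_le_left _ _))
      exact ⟨h3.1.trans (mul_le_mul_of_nonneg_right hg (norm_nonneg _)),
        h3.2.trans (mul_le_mul_of_nonneg_right hg (norm_nonneg _))⟩
    · have ht' : |t / ‖u‖| ≤ r' := by
        rw [abs_div, abs_of_pos hun, div_le_iff₀ hun]
        exact ht.trans (min_le_right _ _)
      have h3 := h2 w (t / ‖u‖) (hw.trans_le (min_le_right _ _)) ht'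
      have e1 : ((t / ‖u‖ : ℝ) : ℂ) * u = t * (u / ‖u‖) := by push_cast; ring
      rw [e1, abs_div, abs_of_pos hun] at h3
      rw [Complex.ofReal_one, one_mul]
      refine h3.trans (le_of_eq ?_)
      field_simp
  refine H ρ F (fun _ => u / ‖u‖) hρ hF (fun _ => ?_) (Or.inl ⟨⟨u / ‖u‖, ?_, ?_⟩, ?_⟩)
  · rw [norm_div, Complex.norm_real, norm_norm, div_self hun.ne']
  · rw [norm_div, Complex.norm_real, norm_norm, div_self hun.ne']
  · refine Eventually.of_forall fun w => ?_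
    rw [sub_self, norm_zero]
    exact hε.le
  · exact fun s hs' => ⟨key s (hΛ₀ s hs').1 (hs s hs').2, key s⁻¹ (hΛ₀ s hs').2
      (Pool.MP_88da87_gt.ac_inv hρ.zero hρ.one hρ.mul (hs s hs').2 (hT s) (hb s⁻¹))⟩

/-- piecewise `C¹` holonomy: the `ρ(s)` and `ρ(s⁻¹)`, `s ∈ S`, are piecewise `C¹` -/
theorem piecewiseC1 (G : Type) [Group G] (S : Finset G) (hS : Subgroup.closure (S : Set G) = ⊤)
    (hA : Amenable G) (hH : ∀ φ : G →* Multiplicative ℝ, φ = 1)
    (ρ F : G → ℂ → ℂ) (hρ : IsGermHom ρ) (hF : IsLift ρ F)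
    (hs : ∀ s ∈ S, PieceC1 (ρ s) ∧ PieceC1 (ρ s⁻¹)) :
    ∀ g, ∀ᶠ x in 𝓝 (0 : ℂ), ρ g x = x := by
  refine bilip G S hS hA hH ρ F hρ hF 1 one_ne_zero fun s hs' => ⟨?_, ?_⟩
  · exact Pool.MP_88da87_gt.bilip_of_lip hρ.zero hρ.cont hρ.one hρ.mul
      (Pool.MP_88da87_gt.PieceC1.lip (hs s hs').1 (hρ.cont s))
      (Pool.MP_88da87_gt.PieceC1.lip (hs s hs').2 (hρ.cont s⁻¹))
  · exact Pool.MP_88da87_gt.ac_of_ah (Pool.MP_88da87_gt.PieceC1.ah (hs s hs').1 (hρ.cont s))

/-- `f` is `o(1)`-Lipschitz at `0` -/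
def SmallLip (f : ℂ → ℂ) : Prop :=
  ∀ ε : ℝ, 0 < ε → ∃ r : ℝ, 0 < r ∧ ∀ x y : ℂ, ‖x‖ < r → ‖y‖ < r → ‖f y - f x‖ ≤ ε * ‖y - x‖

/-- `A` is positively homogeneous, and `f - A ∘ φ` and `φ - id` are `o(1)`-Lipschitz at `0` -/
structure Tangent (f : ℂ → ℂ) (A : ℂ ≃ₜ ℂ) (φ : ℂ → ℂ) : Prop where
  hom : ∀ (r : ℝ) (x : ℂ), 0 < r → A (r * x) = r * A x
  zero : φ 0 = 0
  ident : SmallLip fun x => φ x - x
  close : SmallLip fun x => f x - A (φ x)

/-- `f x = A x + o(x)` -/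
theorem Tangent.tan {f φ : ℂ → ℂ} {A : ℂ ≃ₜ ℂ} (h : Tangent f A φ) (hf : f 0 = 0) :
    Pool.MP_88da87_gt.Tan f A := by
  intro ε hε
  have hA : Pool.MP_88da87_gt.Homog A := h.hom
  obtain ⟨δ, hδ, h1⟩ := hA.unif A.continuous (ε := ε / 2) (by positivity)
  obtain ⟨r1, hr1, H1⟩ := h.ident δ hδ
  obtain ⟨r2, hr2, H2⟩ := h.close (ε / 2) (by positivity)
  filter_upwards [Pool.MP_88da87_gt.small_ball (V := ℂ) r1 hr1,
    Pool.MP_88da87_gt.small_ball (V := ℂ) r2 hr2] with x b1 b2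
  have e1 := H1 0 x (by rw [norm_zero]; exact hr1) b1
  have e2 := H2 0 x (by rw [norm_zero]; exact hr2) b2
  dsimp only at e1 e2
  rw [h.zero, sub_zero, sub_zero, sub_zero] at e1
  rw [h.zero, hA.zero, hf, sub_zero, sub_zero, sub_zero] at e2
  have e3 := h1 x (φ x - x) e1
  rw [add_sub_cancel] at e3
  have e4 : f x - A x = (f x - A (φ x)) + (A (φ x) - A x) := by ring
  rw [e4]
  exact (norm_add_le _ _).trans (by linarith)

/-- Let `G` be amenable, generated by the finite set `S`, without homomorphisms `≠ 0` to `ℝ`.  Let `ρ` be a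
homomorphism of `G` into the germs at `0` of homeomorphisms of the plane fixing `0`, with a lift `F` to the
universal cover of the punctured plane, such that each `ρ(s)`, `s ∈ S`, has at `0`, in the strict sense, a
positively homogeneous tangent map, the homeomorphism `A(s)` of the plane.  Then `ρ` is trivial. -/
theorem tangent (G : Type) [Group G] (S : Finset G) (hS : Subgroup.closure (S : Set G) = ⊤)
    (hA : Amenable G) (hH : ∀ φ : G →* Multiplicative ℝ, φ = 1)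
    (ρ F φ : G → ℂ → ℂ) (A : G → ℂ ≃ₜ ℂ) (hρ : IsGermHom ρ) (hF : IsLift ρ F)
    (hT : ∀ s ∈ S, Tangent (ρ s) (A s) (φ s)) :
    ∀ g, ∀ᶠ x in 𝓝 (0 : ℂ), ρ g x = x := by
  have hU' := Pool.MP_88da87_gt.cone_trivial S hS hA hH
  -- the tangent maps are the identity
  have h2 : ∀ s ∈ S, ∀ x, A s x = x := by
    intro s hs x
    have h3 := (Pool.MP_88da87_gt.tan_lift hS hU' hρ.zero hρ.cont hρ.one hρ.mul hF.exp
      (Pool.MP_88da87_gt.ev_LL.2 hF.one) (fun g h => Pool.MP_88da87_gt.ev_LL.2 (hF.mul g h)) hF.period'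
      (fun s hs => ⟨A s, (hT s hs).hom, (hT s hs).tan (hρ.zero s)⟩) s).1
    exact Pool.MP_88da87_gt.Tan.unique (hT s hs).hom (B := fun x => x) (fun r x _ => rfl)
      ((hT s hs).tan (hρ.zero s)) h3 x
  -- the germs are strictly tangent to the identity
  have h3 : ∀ s ∈ S, Pool.MP_88da87_gt.StrictId (ρ s) := by
    intro s hs ε hε
    obtain ⟨r1, hr1, H1⟩ := (hT s hs).ident (ε / 2) (by positivity)
    obtain ⟨r2, hr2, H2⟩ := (hT s hs).close (ε / 2) (by positivity)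
    refine ⟨min r1 r2, lt_min hr1 hr2, fun x y hx hy => ?_⟩
    have e1 := H1 x y (hx.trans_le (min_le_left _ _)) (hy.trans_le (min_le_left _ _))
    have e2 := H2 x y (hx.trans_le (min_le_right _ _)) (hy.trans_le (min_le_right _ _))
    dsimp only at e1 e2
    rw [h2 s hs, h2 s hs] at e2
    have e3 : (ρ s y - ρ s x) - (y - x) = ((φ s y - y) - (φ s x - x)) +
        ((ρ s y - φ s y) - (ρ s x - φ s x)) := by ring
    rw [e3]
    exact (norm_add_le _ _).trans (by linarith)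
  exact fixed_all hS hρ (Pool.MP_88da87_gt.fixed_of_strict S hS hA hH hρ.zero hρ.cont hρ.mul
    (Pool.MP_88da87_gt.strict_all hS hρ.zero hρ.cont hρ.one hρ.mul h3))

/-- holonomy germs which are positively homogeneous, for instance piecewise linear -/
theorem homogeneous (G : Type) [Group G] (S : Finset G) (hS : Subgroup.closure (S : Set G) = ⊤)
    (hA : Amenable G) (hH : ∀ φ : G →* Multiplicative ℝ, φ = 1)
    (ρ F : G → ℂ → ℂ) (A : G → ℂ ≃ₜ ℂ) (hρ : IsGermHom ρ) (hF : IsLift ρ F)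
    (hom : ∀ s ∈ S, ∀ (r : ℝ) (x : ℂ), 0 < r → A s (r * x) = r * A s x)
    (heq : ∀ s ∈ S, ∀ᶠ x in 𝓝 (0 : ℂ), ρ s x = A s x) :
    ∀ g, ∀ᶠ x in 𝓝 (0 : ℂ), ρ g x = x := by
  refine tangent G S hS hA hH ρ F (fun _ x => x) A hρ hF (fun s hs => ⟨hom s hs, rfl, ?_, ?_⟩)
  · intro ε hε
    refine ⟨1, one_pos, fun x y _ _ => ?_⟩
    simp only [sub_self, norm_zero]
    positivity
  · intro ε hε
    refine Pool.MP_88da87_gt.pairs_of (heq s hs) fun x y hx hy => ?_
    dsimp only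
    rw [hx, hy, sub_self, sub_self, sub_self, norm_zero]
    positivity

end Pool.Agent.Results.MP_88da87_gt.PiecewiseC1
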