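import Pool.Agent.Lib.MP_88da87_gt.Cert

/-!
# Codimension two: holonomy which acts on the directions of chords, `e(ν_L) = 0`

The germ of a transversally oriented `C⁰` foliation of codimension two along a compact leaf `L` is given by
its holonomy, a homomorphism `ρ` of `G = π₁(L)` into the group of germs at `0` of homeomorphisms of `ℝ²`
fixing `0`; `L` is stable if and only if `ρ` is trivial (Reeb, Haefliger).

Let `G` be amenable, generated by the finite set `S`, without homomorphisms `≠ 0` to `ℝ`.  There are a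
finite set `B ⊂ G` and `ε > 0`, depending only on `G` and `S`, with the following property.  Let `α` be an
action of `G` on the circle of directions which lifts to an action on the line (for the action of
the holonomy on directions this is `e(ν_L) = 0`).  If, for all `x` near `0`, up to the angle `ε` the
maps `ρ(k)`, `k ∈ B`, transform the directions of the chords from `x` to `ρ(g)x`, `g ∈ B`, by `α(k)`, then `ρ` is
trivial.  Nothing is asked about the lengths of the chords.

In particular `L` is stable if each holonomy map acts on the directions of small chords: the direction of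
`ρ(k)y - ρ(k)x` is `α(k)(direction of y - x) + o(1)` for `x, y → 0` (`regular`); for `C¹` foliations
this holds with the projective action `α` of the linear holonomy.
-/

set_option autoImplicit false

namespace Pool.Agent.Results.MP_88da87_gt.RegularDirections

open Filter Topology

open Classical in
/-- amenable: Følner's condition -/
def Amenable (G : Type) [Group G] : Prop :=
  ∀ (K : Finset G) (δ : ℝ), 0 < δ → ∃ F : Finset G, F.Nonempty ∧
    ∀ k ∈ K, (((F.image (fun x => k * x)) \ F).card : ℝ) ≤ δ * F.card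

/-- `ρ` is a homomorphism of `G` into the group of germs at `0` of homeomorphisms of the plane fixing `0` -/
structure IsGermHom {G : Type} [Group G] (ρ : G → ℂ → ℂ) : Prop where
  zero : ∀ g, ρ g 0 = 0
  cont : ∀ g, ∀ᶠ x in 𝓝 (0 : ℂ), ContinuousAt (ρ g) x
  one : ∀ᶠ x in 𝓝 (0 : ℂ), ρ 1 x = x
  mul : ∀ g h, ∀ᶠ x in 𝓝 (0 : ℂ), ρ (g * h) x = ρ g (ρ h x)

/-- `α` is an action of `G` on the line by increasing maps which commute with the translation by `2π`: the
lift of an action on the circle of directions -/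
structure IsLift {G : Type} [Group G] (α : G → ℝ → ℝ) : Prop where
  mono : ∀ g, StrictMono (α g)
  one : ∀ t, α 1 t = t
  mul : ∀ g h t, α (g * h) t = α g (α h t)
  period : ∀ g t, α g (t + 2 * Real.pi) = α g t + 2 * Real.pi

/-- up to the angle `ε`, the maps `ρ(k)`, `k ∈ B`, transform the directions of the chords from `x` to
`ρ(g)x`, `g ∈ B`, by `α(k)` -/
def Directed {G : Type} (B : Finset G) (ε : ℝ) (α : G → ℝ → ℝ) (ρ : G → ℂ → ℂ) (x : ℂ) : Prop :=
  ∀ k ∈ B, ∀ g ∈ B, ρ g x ≠ x →
    ∀ t : ℝ, ρ g x - x = ‖ρ g x - x‖ * Complex.exp (t * Complex.I) →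
      InnerProductGeometry.angle (ρ k (ρ g x) - ρ k x) (Complex.exp (α k t * Complex.I)) ≤ ε

/-- points fixed by the generators are fixed by all elements -/
theorem fixed_all {G : Type} [Group G] {S : Finset G}
    (hS : Subgroup.closure (S : Set G) = ⊤) {ρ : G → ℂ → ℂ} (hρ : IsGermHom ρ)
    (h : ∀ s ∈ S, ∀ᶠ x in 𝓝 (0 : ℂ), ρ s x = x) (g : G) : ∀ᶠ x in 𝓝 (0 : ℂ), ρ g x = x := by
  have hg : g ∈ Subgroup.closure (S : Set G) := by rw [hS]; trivial
  induction hg using Subgroup.closure_induction with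
  | mem s hs => exact h s hs
  | one => exact hρ.one
  | mul x y _ _ hx hy =>
    filter_upwards [hx, hy, hρ.mul x y] with z h1 h2 h3
    rw [h3, h2, h1]
  | inv x _ hx =>
    filter_upwards [hx, hρ.mul x⁻¹ x, hρ.one] with z h1 h2 h3
    rw [inv_mul_cancel, h3, h1] at h2
    exact h2.symm

theorem near {G : Type} [Group G] {ρ : G → ℂ → ℂ} (hρ : IsGermHom ρ) (B : Finset G) :
    ∀ᶠ x in 𝓝 (0 : ℂ), ρ 1 x = x ∧ ∀ k ∈ B, ∀ g ∈ B, ρ (k * g) x = ρ k (ρ g x) := by
  refine hρ.one.and ?_
  rw [Filter.eventually_all_finset]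
  intro k _
  rw [Filter.eventually_all_finset]
  intro s _
  exact hρ.mul k s

/-- an action on the line is trivial -/
theorem lift_trivial {G : Type} [Group G] (S : Finset G)
    (hS : Subgroup.closure (S : Set G) = ⊤) (hA : Amenable G)
    (hH : ∀ φ : G →* Multiplicative ℝ, φ = 1) {α : G → ℝ → ℝ} (hα : IsLift α) (g : G) (t : ℝ) :
    α g t = t := by
  have h1 : {k : G | t ≤ α k t} = Set.univ := by
    apply Pool.MP_88da87_gt.cone_trivial S hS hA hH
    refine ⟨fun k h hk hh => ?_, fun k => ?_⟩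
    · have b1 : t ≤ α k t := hk
      have b2 : t ≤ α h t := hh
      change t ≤ α (k * h) t
      rw [hα.mul]
      exact b1.trans ((hα.mono k).monotone b2)
    · rcases le_or_gt t (α k t) with h | h
      · exact Or.inl h
      · right
        have := hα.mono k⁻¹ h
        rw [← hα.mul, inv_mul_cancel, hα.one] at this
        exact this.le
  have h2 : ∀ k : G, t ≤ α k t := fun k => by
    have : k ∈ {k : G | t ≤ α k t} := by rw [h1]; trivial
    exact this
  have h3 := (hα.mono g).monotone (h2 g⁻¹)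
  rw [← hα.mul, mul_inv_cancel, hα.one] at h3
  exact le_antisymm h3 (h2 g)

/-- Let `G` be amenable, generated by the finite set `S`, without homomorphisms `≠ 0` to `ℝ`.
There are a finite set `B` and `ε > 0` such that for every homomorphism `ρ` of `G` into the germs of
homeomorphisms of the plane at `0` and every action `α` of `G` on the circle of directions lifted to the
line: the points near `0` for which the `ρ(k)`, `k ∈ B`, transform the directions of the chords from `x` to
`ρ(g)x`, `g ∈ B`, by `α(k)` up to the angle `ε` are fixed by the `ρ(s)`, `s ∈ S`; and `ρ` is trivial if this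
holds for all points near `0`. -/
theorem result (G : Type) [Group G] (S : Finset G) (hS : Subgroup.closure (S : Set G) = ⊤)
    (hA : Amenable G) (hH : ∀ φ : G →* Multiplicative ℝ, φ = 1) :
    ∃ (B : Finset G) (ε : ℝ), 0 < ε ∧ ∀ (ρ : G → ℂ → ℂ) (α : G → ℝ → ℝ), IsGermHom ρ → IsLift α →
      (∀ᶠ x in 𝓝 (0 : ℂ), Directed B ε α ρ x → ∀ s ∈ S, ρ s x = x) ∧
      ((∀ᶠ x in 𝓝 (0 : ℂ), Directed B ε α ρ x) → ∀ g, ∀ᶠ x in 𝓝 (0 : ℂ), ρ g x = x) := by
  obtain ⟨B, ε, hε, hB⟩ := Pool.MP_88da87_gt.fixed_of_turn S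
    fun P hP => Pool.MP_88da87_gt.cone_trivial S hS hA hH P hP
  have key : ∀ (ρ : G → ℂ → ℂ) (α : G → ℝ → ℝ), IsGermHom ρ → IsLift α →
      ∀ᶠ x in 𝓝 (0 : ℂ), Directed B ε α ρ x → ∀ s ∈ S, ρ s x = x := by
    intro ρ α hρ hα
    filter_upwards [near hρ B] with x hx hT
    refine hB ℂ ℂ ρ (fun y => y) x hx.1 hx.2 fun k hk g hg hne => ?_
    have h0 : 0 < ‖ρ g x - x‖ := norm_pos_iff.2 (sub_ne_zero.2 hne)
    have h1 := hT k hk g hg hne (Complex.arg (ρ g x - x)) (Complex.norm_mul_exp_arg_mul_I _).symm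
    rw [lift_trivial S hS hA hH hα] at h1
    have h2 : ρ g x - x = ‖ρ g x - x‖ • Complex.exp (Complex.arg (ρ g x - x) * Complex.I) := by
      rw [Complex.real_smul, Complex.norm_mul_exp_arg_mul_I]
    rw [h2, InnerProductGeometry.angle_smul_right_of_pos _ _ h0]
    exact h1
  refine ⟨B, ε, hε, fun ρ α hρ hα => ⟨key ρ α hρ hα, fun hT => fixed_all hS hρ fun s hs => ?_⟩⟩
  filter_upwards [key ρ α hρ hα, hT] with x h1 h2
  exact h1 h2 s hs

/-- if the holonomy acts on the directions of small chords, it is trivial -/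
theorem regular (G : Type) [Group G] (S : Finset G) (hS : Subgroup.closure (S : Set G) = ⊤)
    (hA : Amenable G) (hH : ∀ φ : G →* Multiplicative ℝ, φ = 1) (ρ : G → ℂ → ℂ) (α : G → ℝ → ℝ)
    (hρ : IsGermHom ρ) (hα : IsLift α)
    (h : ∀ (k : G) (ε : ℝ), 0 < ε → ∃ r : ℝ, 0 < r ∧ ∀ x y : ℂ, ‖x‖ < r → ‖y‖ < r → y ≠ x →
      ∀ t : ℝ, y - x = ‖y - x‖ * Complex.exp (t * Complex.I) →
      InnerProductGeometry.angle (ρ k y - ρ k x) (Complex.exp (α k t * Complex.I)) ≤ ε) :
    ∀ g, ∀ᶠ x in 𝓝 (0 : ℂ), ρ g x = x := by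
  obtain ⟨B, ε, hε, hB⟩ := result G S hS hA hH
  refine (hB ρ α hρ hα).2 ?_
  have h1 : ∀ᶠ x in 𝓝 (0 : ℂ), ∀ k ∈ B, ∀ g ∈ B, ρ g x ≠ x →
    ∀ t : ℝ, ρ g x - x = ‖ρ g x - x‖ * Complex.exp (t * Complex.I) →
      InnerProductGeometry.angle (ρ k (ρ g x) - ρ k x) (Complex.exp (α k t * Complex.I)) ≤ ε := by
    rw [Filter.eventually_all_finset]
    intro k _
    rw [Filter.eventually_all_finset]
    intro g _
    obtain ⟨r, hr, h⟩ := h k ε hε
    have t1 : Tendsto (ρ g) (𝓝 0) (𝓝 0) := by
      have := (hρ.cont g).self_of_nhds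
      rw [ContinuousAt, hρ.zero g] at this
      exact this
    have t2 : ∀ᶠ x in 𝓝 (0 : ℂ), ‖x‖ < r := by
      filter_upwards [Metric.ball_mem_nhds (0 : ℂ) hr] with x hx
      simpa using hx
    filter_upwards [t2, t1.eventually t2] with x b1 b2
    exact h x (ρ g x) b1 b2
  exact h1

end Pool.Agent.Results.MP_88da87_gt.RegularDirections
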