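import Pool.Agent.Lib.MP_88da87_gt.Cert

/-!
# Holonomy of small turning near a compact leaf with amenable fundamental group and `H¹(L; ℝ) = 0`

The germ of a `C⁰` foliation of codimension `q` along a compact leaf `L` is given by its holonomy, a
homomorphism `ρ` of `G = π₁(L)` into the group of germs of homeomorphisms of a transversal `(X, o) ≅ (ℝ^q, 0)`;
`L` is stable if and only if `ρ` is trivial (Reeb, Haefliger).

Let `G` be amenable, generated by the finite set `S`, without homomorphisms `≠ 0` to `ℝ`.  There are a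
finite set `B ⊂ G` and an angle `ε > 0`, depending only on `G` and `S`, such that for every `ρ`, in every
codimension, and for all coordinates `j` on the transversal a point `x` near `o` is fixed by the `ρ(s)`,
`s ∈ S`, if the maps `ρ(k)`, `k ∈ B`, turn the chords from `x` to `ρ(g)x`, `g ∈ B`, by the angle `ε` at
most.  Nothing is asked about lengths.

In codimension one the condition says that the `ρ(k)` preserve orientation; this is the theorem of Witte
Morris and Navas (`line`).  For `C¹` foliations it holds if the linear holonomy is trivial.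

Proof: the theorem of Witte Morris for total left preorders (recurrence along Følner sets in
the place of an invariant measure), made finite by compactness: there is a finite set on which
every left preorder is trivial.  If `x` is not fixed, `⟨ρ(g)x - x, v⟩ ≥ 0` is such a preorder for a
suitable vector `v`.
-/

set_option autoImplicit false

namespace Pool.Agent.Results.MP_88da87_gt.SmallTurning

open Filter Topology

open Classical in
/-- amenable: Følner's condition -/
def Amenable (G : Type) [Group G] : Prop :=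
  ∀ (K : Finset G) (δ : ℝ), 0 < δ → ∃ F : Finset G, F.Nonempty ∧
    ∀ k ∈ K, (((F.image (fun x => k * x)) \ F).card : ℝ) ≤ δ * F.card

/-- `ρ` is a homomorphism of `G` into the group of germs at `o` of homeomorphisms fixing `o` -/
structure IsGermHom {G X : Type} [Group G] [TopologicalSpace X] (o : X) (ρ : G → X → X) : Prop where
  base : ∀ g, ρ g o = o
  cont : ∀ g, ∀ᶠ x in 𝓝 o, ContinuousAt (ρ g) x
  one : ∀ᶠ x in 𝓝 o, ρ 1 x = x
  mul : ∀ g h, ∀ᶠ x in 𝓝 o, ρ (g * h) x = ρ g (ρ h x)

/-- in the coordinates `j`, the maps `ρ(k)`, `k ∈ B`, turn the chords from `x` to `ρ(g)x`, `g ∈ B`, by the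
angle `ε` at most -/
def SmallTurn {G X V : Type} [NormedAddCommGroup V] [InnerProductSpace ℝ V] (B : Finset G) (ε : ℝ)
    (ρ : G → X → X) (j : X → V) (x : X) : Prop :=
  ∀ k ∈ B, ∀ g ∈ B, ρ g x ≠ x →
    InnerProductGeometry.angle (j (ρ k (ρ g x)) - j (ρ k x)) (j (ρ g x) - j x) ≤ ε

/-- points fixed by the generators are fixed by all elements -/
theorem fixed_all {G X : Type} [Group G] [TopologicalSpace X] {o : X} {S : Finset G}
    (hS : Subgroup.closure (S : Set G) = ⊤) {ρ : G → X → X} (hρ : IsGermHom o ρ)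
    (h : ∀ s ∈ S, ∀ᶠ x in 𝓝 o, ρ s x = x) (g : G) : ∀ᶠ x in 𝓝 o, ρ g x = x := by
  have hg : g ∈ Subgroup.closure (S : Set G) := by rw [hS]; trivial
  induction hg using Subgroup.closure_induction with
  | mem s hs => exact h s hs
  | one => exact hρ.one
  | mul x y _ _ hx hy =>
    filter_upwards [hx, hy, hρ.mul x y] with z h1 h2 h3
    rw [h3, h2, h1]
  | inv x _ hx =>
    filter_upwards [hx, hρ.mul x⁻¹ x, hρ.one] with z h1 h2 h3
    rw [inv_mul_cancel, h3, h1] at h2
    exact h2.symm

theorem near {G X : Type} [Group G] [TopologicalSpace X] {o : X} {ρ : G → X → X}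
    (hρ : IsGermHom o ρ) (B : Finset G) :
    ∀ᶠ x in 𝓝 o, ρ 1 x = x ∧ ∀ k ∈ B, ∀ g ∈ B, ρ (k * g) x = ρ k (ρ g x) := by
  refine hρ.one.and ?_
  rw [Filter.eventually_all_finset]
  intro k _
  rw [Filter.eventually_all_finset]
  intro s _
  exact hρ.mul k s

/-- the same for every finitely generated group without total left preorders `≠ G` (groups which do
not act on the line) -/
theorem unordered (G : Type) [Group G] (S : Finset G) (hS : Subgroup.closure (S : Set G) = ⊤)
    (hU : ∀ P : Set G, (∀ g h, g ∈ P → h ∈ P → g * h ∈ P) → (∀ g, g ∈ P ∨ g⁻¹ ∈ P) → P = Set.univ) :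
    ∃ (B : Finset G) (ε : ℝ), 0 < ε ∧
      ∀ (X V : Type) [TopologicalSpace X] [NormedAddCommGroup V] [InnerProductSpace ℝ V] (o : X)
        (ρ : G → X → X) (j : X → V), IsGermHom o ρ →
      (∀ᶠ x in 𝓝 o, SmallTurn B ε ρ j x → ∀ s ∈ S, ρ s x = x) ∧
      ((∀ᶠ x in 𝓝 o, SmallTurn B ε ρ j x) → ∀ g, ∀ᶠ x in 𝓝 o, ρ g x = x) := by
  obtain ⟨B, ε, hε, hB⟩ := Pool.MP_88da87_gt.fixed_of_turn S fun P hP => hU P hP.mul hP.tot
  have key : ∀ (X V : Type) [TopologicalSpace X] [NormedAddCommGroup V] [InnerProductSpace ℝ V]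
      (o : X) (ρ : G → X → X) (j : X → V), IsGermHom o ρ →
      ∀ᶠ x in 𝓝 o, SmallTurn B ε ρ j x → ∀ s ∈ S, ρ s x = x := by
    intro X V _ _ _ o ρ j hρ
    filter_upwards [near hρ B] with x hx hT
    exact hB X V ρ j x hx.1 hx.2 hT
  refine ⟨B, ε, hε, fun X V _ _ _ o ρ j hρ => ⟨key X V o ρ j hρ, fun hT =>
    fixed_all hS hρ fun s hs => ?_⟩⟩
  filter_upwards [key X V o ρ j hρ, hT] with x h1 h2
  exact h1 h2 s hs

/-- Let `G` be amenable, generated by the finite set `S`, without homomorphisms `≠ 0` to `ℝ`.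
There are a finite set `B` and `ε > 0` such that for every homomorphism `ρ` of `G` into the germs of
homeomorphisms at `o ∈ X` and every map `j` of `X` to an inner product space, the points near `o` whose
chords to the points `ρ(g)x`, `g ∈ B`, are turned by the maps `ρ(k)`, `k ∈ B`, by the angle `ε` at most are
fixed by the `ρ(s)`, `s ∈ S`; and `ρ` is trivial if this holds for all points near `o`. -/
theorem result (G : Type) [Group G] (S : Finset G) (hS : Subgroup.closure (S : Set G) = ⊤)
    (hA : Amenable G) (hH : ∀ φ : G →* Multiplicative ℝ, φ = 1) :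
    ∃ (B : Finset G) (ε : ℝ), 0 < ε ∧
      ∀ (X V : Type) [TopologicalSpace X] [NormedAddCommGroup V] [InnerProductSpace ℝ V] (o : X)
        (ρ : G → X → X) (j : X → V), IsGermHom o ρ →
      (∀ᶠ x in 𝓝 o, SmallTurn B ε ρ j x → ∀ s ∈ S, ρ s x = x) ∧
      ((∀ᶠ x in 𝓝 o, SmallTurn B ε ρ j x) → ∀ g, ∀ᶠ x in 𝓝 o, ρ g x = x) :=
  unordered G S hS fun P h1 h2 => Pool.MP_88da87_gt.cone_trivial S hS hA hH P ⟨h1, h2⟩

/-- codimension one: germs at `0` of increasing maps -/
theorem line (G : Type) [Group G] (S : Finset G) (hS : Subgroup.closure (S : Set G) = ⊤)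
    (hA : Amenable G) (hH : ∀ φ : G →* Multiplicative ℝ, φ = 1) (ρ : G → ℝ → ℝ)
    (hρ : IsGermHom 0 ρ) (hmono : ∀ g, ∃ r : ℝ, 0 < r ∧ ∀ x y, |x| < r → |y| < r → x < y → ρ g x < ρ g y) :
    ∀ g, ∀ᶠ x in 𝓝 (0 : ℝ), ρ g x = x := by
  obtain ⟨B, ε, hε, hB⟩ := result G S hS hA hH
  refine (hB ℝ ℝ 0 ρ (fun x => x) hρ).2 ?_
  have h1 : ∀ᶠ x in 𝓝 (0 : ℝ), ∀ k ∈ B, ∀ g ∈ B, (x < ρ g x → ρ k x < ρ k (ρ g x)) ∧
      (ρ g x < x → ρ k (ρ g x) < ρ k x) := by
    rw [Filter.eventually_all_finset]
    intro k _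
    rw [Filter.eventually_all_finset]
    intro g _
    obtain ⟨r, hr, h⟩ := hmono k
    have t1 : Tendsto (ρ g) (𝓝 0) (𝓝 0) := by
      have := (hρ.cont g).self_of_nhds
      rw [ContinuousAt, hρ.base g] at this
      exact this
    have t2 : ∀ᶠ x in 𝓝 (0 : ℝ), |x| < r := by
      filter_upwards [Metric.ball_mem_nhds (0 : ℝ) hr] with x hx
      simpa using hx
    filter_upwards [t2, t1.eventually t2] with x b1 b2
    exact ⟨h x (ρ g x) b1 b2, h (ρ g x) x b2 b1⟩
  filter_upwards [h1] with x hx k hk g hg hne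
  obtain ⟨h2, h3⟩ := hx k hk g hg
  rcases lt_or_gt_of_ne hne with h | h
  · have h4 := h3 h
    have e : ρ k (ρ g x) - ρ k x = ((ρ k (ρ g x) - ρ k x) / (ρ g x - x)) • (ρ g x - x) := by
      rw [smul_eq_mul, div_mul_cancel₀ _ (by linarith : ρ g x - x < 0).ne]
    rw [e, InnerProductGeometry.angle_smul_left_of_pos _ _
      (div_pos_of_neg_of_neg (by linarith) (by linarith)),
      InnerProductGeometry.angle_self (by linarith : ρ g x - x < 0).ne]
    exact hε.le
  · have h4 := h2 h
    have e : ρ k (ρ g x) - ρ k x = ((ρ k (ρ g x) - ρ k x) / (ρ g x - x)) • (ρ g x - x) := by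
      rw [smul_eq_mul, div_mul_cancel₀ _ (by linarith : 0 < ρ g x - x).ne']
    rw [e, InnerProductGeometry.angle_smul_left_of_pos _ _ (div_pos (by linarith) (by linarith)),
      InnerProductGeometry.angle_self (by linarith : 0 < ρ g x - x).ne']
    exact hε.le

end Pool.Agent.Results.MP_88da87_gt.SmallTurning
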